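import Pool.Agent.H6.FI.TargetsB

/-!
Board fi_modules, row A5C: the number of conjugacy classes of the alternating group of degree 5.
-/

set_option autoImplicit false

namespace Pool.Agent.H74.FI.A5C

open _root_.FI

theorem count : (Finset.univ.filter (fun p : alternatingGroup (Fin 5) × alternatingGroup (Fin 5) =>
    p.1 * p.2 = p.2 * p.1)).card = 300 := by
  decide +kernel

theorem pf_A5C : T_A5C := by
  have h1 : Nat.card {p : alternatingGroup (Fin 5) × alternatingGroup (Fin 5) //
      Commute p.1 p.2} = 300 := by
    classical
    rw [Nat.card_eq_fintype_card, Fintype.card_subtype, ← count]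
    exact congrArg Finset.card (Finset.filter_congr fun p _ => Iff.rfl)
  have h2 := card_comm_eq_card_conjClasses_mul_card (alternatingGroup (Fin 5))
  have h3 : Nat.card (alternatingGroup (Fin 5)) = 60 := by
    rw [nat_card_alternatingGroup]
    simp [Nat.factorial]
  rw [h1, h3] at h2
  show Nat.card (ConjClasses (alternatingGroup (Fin 5))) = 5
  omega

end Pool.Agent.H74.FI.A5C
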