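import Pool.Agent.H6.FI.TargetsB

/-!
Board fi_modules, row AR: arithmetic of the degrees.
-/

set_option autoImplicit false

namespace Pool.Agent.H74.FI.AR

open _root_.FI

theorem pf_AR : T_AR := by
  classical
  intro ι s d hs hd hsum
  have hval : ∀ i ∈ s, d i = 2 ∨ d i = 4 ∨ d i = 6 := by
    intro i hi
    have h1 : d i * d i ≤ 60 := by
      rw [← hsum]
      exact Finset.single_le_sum (f := fun i => d i * d i) (fun j _ => Nat.zero_le _) hi
    obtain ⟨h2, h3⟩ := hd i hi
    have h4 : d i ≤ 7 := by
      by_contra h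
      push Not at h
      nlinarith
    omega
  set a : ℕ := (s.filter fun i => d i = 6).card with ha
  set b : ℕ := (s.filter fun i => d i = 4).card with hb
  set c : ℕ := (s.filter fun i => d i = 2).card with hc
  have key : ∀ (f : ℕ → ℕ), ∑ i ∈ s, f (d i) = f 6 * a + f 4 * b + f 2 * c := by
    intro f
    have h1 : ∑ i ∈ s, f (d i) = ∑ i ∈ s, (f 6 * (if d i = 6 then 1 else 0) +
        f 4 * (if d i = 4 then 1 else 0) + f 2 * (if d i = 2 then 1 else 0)) := by
      refine Finset.sum_congr rfl fun i hi => ?_
      rcases hval i hi with h | h | h <;> rw [h] <;> simp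
    rw [h1, Finset.sum_add_distrib, Finset.sum_add_distrib, ← Finset.mul_sum, ← Finset.mul_sum,
      ← Finset.mul_sum, Finset.sum_boole, Finset.sum_boole, Finset.sum_boole]
    rfl
  have h1 := key fun n => n * n
  have h2 := key fun _ => 1
  have h3 := key fun n => n
  simp only [Finset.sum_const, smul_eq_mul, mul_one] at h2
  rw [hsum] at h1
  rw [h3, h2]
  rw [h2] at hs
  have ha1 : a ≤ 1 := by omega
  have hb1 : b ≤ 3 := by omega
  interval_cases a <;> interval_cases b <;> omega

end Pool.Agent.H74.FI.AR
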