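import Pool.Agent.H6.FI.TargetsC

/-!
Board fi_modules, row FNL: the theorem of Fitting.
-/

set_option autoImplicit false

namespace Pool.Agent.H74.FI.FNL

open _root_.FI
open scoped commutatorElement

variable {G : Type} [Group G]

theorem comm_sSup_le (N Z : Subgroup G) [N.Normal] (S : Set (Subgroup G))
    (h : ∀ X ∈ S, ⁅X, Z⁆ ≤ N) : ⁅sSup S, Z⁆ ≤ N := by
  have key : ∀ x : G, x ∈ (Subgroup.centralizer
      ((Z.map (QuotientGroup.mk' N) : Subgroup (G ⧸ N)) : Set (G ⧸ N))).comap
        (QuotientGroup.mk' N) ↔ ∀ z ∈ Z, ⁅x, z⁆ ∈ N := by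
    intro x
    rw [Subgroup.mem_comap, Subgroup.mem_centralizer_iff_commutator_eq_one]
    constructor
    · intro hx z hz
      have h1 := hx (QuotientGroup.mk' N z) ⟨z, hz, rfl⟩
      have h2 : QuotientGroup.mk' N ⁅z, x⁆ = 1 := by
        rw [map_commutatorElement, commutatorElement_def]
        exact h1
      have h3 : ⁅z, x⁆ ∈ N := (QuotientGroup.eq_one_iff _).1 h2
      rw [← commutatorElement_inv]
      exact N.inv_mem h3
    · rintro hx _ ⟨z, hz, rfl⟩
      have h3 : ⁅z, x⁆ ∈ N := by
        rw [← commutatorElement_inv]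
        exact N.inv_mem (hx z hz)
      have h2 : QuotientGroup.mk' N ⁅z, x⁆ = 1 := (QuotientGroup.eq_one_iff _).2 h3
      rw [map_commutatorElement, commutatorElement_def] at h2
      exact h2
  rw [Subgroup.commutator_le]
  intro x hx z hz
  refine (key x).1 ?_ z hz
  refine (sSup_le fun X hX y hy => ?_ : sSup S ≤ _) hx
  exact (key y).2 fun z hz => h X hX (Subgroup.commutator_mem_commutator hy hz)

theorem comm_sup_le (N Z X Y : Subgroup G) [N.Normal] (h1 : ⁅X, Z⁆ ≤ N) (h2 : ⁅Y, Z⁆ ≤ N) :
    ⁅X ⊔ Y, Z⁆ ≤ N := by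
  rw [← sSup_pair]
  refine comm_sSup_le N Z _ fun W hW => ?_
  rcases hW with rfl | hW
  · exact h1
  · rw [Set.mem_singleton_iff] at hW
    rw [hW]
    exact h2

/-- the lower central series, with the whole group in front -/
def L (A : Subgroup G) : ℕ → Subgroup G
  | 0 => ⊤
  | n + 1 => A.lowerCentralSeries n

theorem lcs_normal (A : Subgroup G) (hA : A.Normal) (n : ℕ) : (A.lowerCentralSeries n).Normal := by
  induction n with
  | zero => exact hA
  | succ n ih =>
    rw [Subgroup.lowerCentralSeries_succ]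
    exact Subgroup.commutator_normal _ _

theorem L_normal (A : Subgroup G) (hA : A.Normal) (n : ℕ) : (L A n).Normal := by
  cases n with
  | zero => exact Subgroup.normal_of_characteristic ⊤
  | succ n => exact lcs_normal A hA n

theorem L_step (A : Subgroup G) (hA : A.Normal) (n : ℕ) : ⁅L A n, A⁆ ≤ L A (n + 1) := by
  cases n with
  | zero =>
    show ⁅(⊤ : Subgroup G), A⁆ ≤ A
    exact Subgroup.commutator_le_right _ _
  | succ n => exact le_rfl

theorem L_inv (A : Subgroup G) (hA : A.Normal) (n : ℕ) (B : Subgroup G) : ⁅L A n, B⁆ ≤ L A n := by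
  have := L_normal A hA n
  exact Subgroup.commutator_le_left _ _

/-- the bound for the lower central series of the join -/
def T (A B : Subgroup G) (k : ℕ) : Subgroup G :=
  sSup {X | ∃ i j, i + j = k + 1 ∧ X = L A i ⊓ L B j}

theorem T_normal {A B : Subgroup G} (hA : A.Normal) (hB : B.Normal) (k : ℕ) :
    (T A B k).Normal := by
  refine normal_sSup _ ?_
  rintro X ⟨i, j, -, rfl⟩
  have h1 := L_normal A hA i
  have h2 := L_normal B hB j
  exact Subgroup.normal_inf_normal _ _

theorem le_T (A B : Subgroup G) {i j k : ℕ} (h : i + j = k + 1) : L A i ⊓ L B j ≤ T A B k :=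
  le_sSup ⟨i, j, h, rfl⟩

theorem lcs_sup_le {A B : Subgroup G} (hA : A.Normal) (hB : B.Normal) (k : ℕ) :
    (A ⊔ B).lowerCentralSeries k ≤ T A B k := by
  induction k with
  | zero =>
    refine sup_le ?_ ?_
    · refine le_trans ?_ (le_T A B (i := 1) (j := 0) rfl)
      exact le_inf le_rfl le_top
    · refine le_trans ?_ (le_T A B (i := 0) (j := 1) rfl)
      exact le_inf le_top le_rfl
  | succ k ih =>
    rw [Subgroup.lowerCentralSeries_succ]
    refine (Subgroup.commutator_mono ih le_rfl).trans ?_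
    have hT := T_normal hA hB (k + 1)
    refine comm_sSup_le _ _ _ ?_
    rintro X ⟨i, j, hij, rfl⟩
    rw [Subgroup.commutator_comm]
    refine comm_sup_le _ _ _ _ ?_ ?_
    · rw [Subgroup.commutator_comm]
      refine le_trans (le_inf ?_ ?_) (le_T A B (i := i + 1) (j := j) (by omega))
      · exact (Subgroup.commutator_mono inf_le_left le_rfl).trans (L_step A hA i)
      · exact (Subgroup.commutator_mono inf_le_right le_rfl).trans (L_inv B hB j A)
    · rw [Subgroup.commutator_comm]
      refine le_trans (le_inf ?_ ?_) (le_T A B (i := i) (j := j + 1) (by omega))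
      · exact (Subgroup.commutator_mono inf_le_left le_rfl).trans (L_inv A hA i B)
      · exact (Subgroup.commutator_mono inf_le_right le_rfl).trans (L_step B hB j)

theorem nilpotent_sup {A B : Subgroup G} (hA : A.Normal) (hB : B.Normal)
    (nA : Group.IsNilpotent A) (nB : Group.IsNilpotent B) :
    Group.IsNilpotent (A ⊔ B : Subgroup G) := by
  rw [Subgroup.isNilpotent_iff_lowerCentralSeries] at nA nB ⊢
  obtain ⟨a, ha⟩ := nA
  obtain ⟨b, hb⟩ := nB
  refine ⟨a + b + 1, ?_⟩
  rw [eq_bot_iff]
  refine (lcs_sup_le hA hB _).trans (sSup_le ?_)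
  rintro X ⟨i, j, hij, rfl⟩
  rcases Nat.lt_or_ge i (a + 1) with hi | hi
  · have hj : b + 1 ≤ j := by omega
    obtain ⟨c, rfl⟩ := Nat.exists_eq_add_of_le' hj
    refine inf_le_right.trans ?_
    show B.lowerCentralSeries (c + b) ≤ ⊥
    rw [← hb]
    exact B.lowerCentralSeries_antitone (Nat.le_add_left b c)
  · obtain ⟨c, rfl⟩ := Nat.exists_eq_add_of_le' hi
    refine inf_le_left.trans ?_
    show A.lowerCentralSeries (c + a) ≤ ⊥
    rw [← ha]
    exact A.lowerCentralSeries_antitone (Nat.le_add_left a c)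

theorem fit_nilpotent [Finite G] : Group.IsNilpotent (fit G) := by
  have hfin : {N : Subgroup G | N.Normal ∧ Group.IsNilpotent N}.Finite := Set.toFinite _
  have hne : {N : Subgroup G | N.Normal ∧ Group.IsNilpotent N}.Nonempty :=
    ⟨⊥, Subgroup.normal_of_characteristic ⊥, inferInstance⟩
  obtain ⟨F, hF⟩ := hfin.exists_maximal hne
  have h1 : fit G = F := by
    refine le_antisymm (sSup_le fun N hN => ?_) (le_sSup hF.prop)
    have h2 : F ⊔ N ∈ {N : Subgroup G | N.Normal ∧ Group.IsNilpotent N} := by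
      have hFn := hF.prop.1
      have hNn := hN.1
      exact ⟨Subgroup.sup_normal _ _, nilpotent_sup hFn hNn hF.prop.2 hN.2⟩
    exact le_sup_right.trans (hF.2 h2 le_sup_left)
  rw [h1]
  exact hF.prop.2

theorem pf_FNL (h1 : T_SOL) : T_FNL := by
  intro G _ _
  have h2 : Group.IsNilpotent (fit G) := fit_nilpotent
  refine ⟨h2, le_sSup ⟨Subgroup.normal_of_characteristic _, frattini_nilpotent⟩, ?_⟩
  exact (h1 G).2.1 (fit G) (fit_normal G) (by
    have := h2
    infer_instance)

end Pool.Agent.H74.FI.FNL
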