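import Pool.Agent.H6.FI.TargetsA

/-!
Board fi_modules, row GAL: the automorphisms of the field `K`.
-/

set_option autoImplicit false

namespace Pool.Agent.H74.FI.GAL

open _root_.FI

section

variable {R V K : Type} [Group R] [AddCommGroup V] {ρ : R →* AddMonoid.End V}

theorem rho_mul (a b : R) (v : V) : ρ (a * b) v = ρ a (ρ b v) := by
  rw [map_mul, AddMonoid.End.coe_mul, Function.comp_apply]

theorem rho_inv (a : R) (v : V) : ρ a⁻¹ (ρ a v) = v := by
  rw [← rho_mul, inv_mul_cancel, map_one]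
  rfl

theorem rho_inv' (a : R) (v : V) : ρ a (ρ a⁻¹ v) = v := by
  rw [← rho_mul, mul_inv_cancel, map_one]
  rfl

variable [Field K] [Module K V] {U : Subgroup R} {j : U →* Kˣ}

/-- the subring of the scalars which `ρ r` transports to scalars -/
def sub (ρ : R →* AddMonoid.End V) (K : Type) [Field K] [Module K V] (r : R) : Subring K where
  carrier := {k | ∃ k' : K, ∀ v : V, ρ r (k • v) = k' • ρ r v}
  mul_mem' := by
    rintro a b ⟨a', ha⟩ ⟨b', hb⟩
    refine ⟨a' * b', fun v => ?_⟩
    rw [mul_smul, ha, hb, mul_smul]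
  one_mem' := ⟨1, fun v => by rw [one_smul, one_smul]⟩
  add_mem' := by
    rintro a b ⟨a', ha⟩ ⟨b', hb⟩
    refine ⟨a' + b', fun v => ?_⟩
    rw [add_smul, map_add, ha, hb, add_smul]
  zero_mem' := ⟨0, fun v => by rw [zero_smul, map_zero, zero_smul]⟩
  neg_mem' := by
    rintro a ⟨a', ha⟩
    refine ⟨-a', fun v => ?_⟩
    rw [neg_smul, map_neg, ha, neg_smul]

theorem sub_top (hU : U.Normal) (h : KSt ρ U j) (r : R) : sub ρ K r = ⊤ := by
  rw [eq_top_iff, ← h.gen, Subring.closure_le]
  rintro k ⟨z, rfl⟩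
  refine ⟨((j ⟨r * z * r⁻¹, hU.conj_mem z z.2 r⟩ : Kˣ) : K), fun v => ?_⟩
  rw [← h.act, ← h.act, ← rho_mul, ← rho_mul]
  congr 2
  simp

theorem exists_aut [Finite K] [Nontrivial V] (hU : U.Normal) (h : KSt ρ U j) (r : R) :
    ∃ s : K ≃+* K, ∀ (k : K) (v : V), ρ r (k • v) = s k • ρ r v := by
  have h1 : ∀ k : K, ∃ k' : K, ∀ v : V, ρ r (k • v) = k' • ρ r v := by
    intro k
    have : k ∈ sub ρ K r := by rw [sub_top hU h r]; trivial
    exact this
  choose σ hσ using h1
  obtain ⟨v0, hv0⟩ := exists_ne (0 : V)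
  have hv1 : ρ r v0 ≠ 0 := by
    intro h0
    apply hv0
    have := rho_inv (ρ := ρ) r v0
    rw [h0, map_zero] at this
    exact this.symm
  have huniq : ∀ a b : K, a • ρ r v0 = b • ρ r v0 → a = b := by
    intro a b hab
    have h2 : (a - b) • ρ r v0 = 0 := by rw [sub_smul, hab, sub_self]
    rcases smul_eq_zero.1 h2 with h3 | h3
    · exact sub_eq_zero.1 h3
    · exact absurd h3 hv1
  let f : K →+* K :=
    { toFun := σ
      map_one' := by
        apply huniq
        rw [← hσ, one_smul, one_smul]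
      map_mul' := by
        intro a b
        apply huniq
        rw [← hσ, mul_smul, hσ, hσ, mul_smul]
      map_zero' := by
        apply huniq
        rw [← hσ, zero_smul, zero_smul, map_zero]
      map_add' := by
        intro a b
        apply huniq
        rw [← hσ, add_smul, map_add, hσ, hσ, add_smul] }
  have hinj : Function.Injective f := f.injective
  have hbij : Function.Bijective f := Finite.injective_iff_bijective.1 hinj
  exact ⟨RingEquiv.ofBijective f hbij, fun k v => hσ k v⟩

end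

theorem card_aut_le (K : Type) [Field K] [Finite K] : 2 ^ Nat.card (K ≃+* K) ≤ Nat.card K := by
  obtain ⟨p, hp⟩ := CharP.exists K
  have hprime : p.Prime := (CharP.char_is_prime_or_zero K p).resolve_right (by
    rintro rfl
    have := CharP.charP_to_charZero K
    exact not_finite K |>.elim)
  have : Fact p.Prime := ⟨hprime⟩
  let _ := ZMod.algebra K p
  have h1 : Nat.card (K ≃+* K) ≤ Nat.card (K ≃ₐ[ZMod p] K) := by
    refine Nat.card_le_card_of_injective
      (fun s : K ≃+* K => AlgEquiv.ofRingEquiv (R := ZMod p) (f := s) (fun c => ?_)) ?_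
    · have : (s : K →+* K).comp (algebraMap (ZMod p) K) = algebraMap (ZMod p) K :=
        RingHom.ext_zmod _ _
      exact DFunLike.congr_fun this c
    · intro s t hst
      ext k
      exact DFunLike.congr_fun hst k
  have h2 : Nat.card (K ≃ₐ[ZMod p] K) = Module.finrank (ZMod p) K :=
    IsGalois.card_aut_eq_finrank (ZMod p) K
  have h3 : Nat.card K = p ^ Module.finrank (ZMod p) K := by
    have := Module.natCard_eq_pow_finrank (K := ZMod p) (V := K)
    rwa [Nat.card_zmod] at this
  rw [h3]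
  calc 2 ^ Nat.card (K ≃+* K) ≤ 2 ^ Module.finrank (ZMod p) K := by
        refine Nat.pow_le_pow_right (by norm_num) ?_
        rw [← h2]
        exact h1
    _ ≤ p ^ Module.finrank (ZMod p) K := Nat.pow_le_pow_left hprime.two_le _

theorem pf_GAL : T_GAL := by
  intro R V K _ _ _ _ _ ρ U _ _ _ j hinj hU h
  choose s hs using exists_aut (K := K) hU h
  have hconj : ∀ (r : R) (z : R) (hz : z ∈ U) (w : V),
      ρ (r * z * r⁻¹) w = s r ((j ⟨z, hz⟩ : Kˣ) : K) • w := by
    intro r z hz w
    have h1 := hs r ((j ⟨z, hz⟩ : Kˣ) : K) (ρ r⁻¹ w)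
    rw [rho_inv', ← h.act ⟨z, hz⟩, ← rho_mul, ← rho_mul] at h1
    exact h1
  have hker : ∀ r r' : R, s r = s r' → r⁻¹ * r' ∈ Subgroup.centralizer (U : Set R) := by
    intro r r' hrr
    rw [Subgroup.mem_centralizer_iff]
    intro z hz
    have h1 : ρ (r * z * r⁻¹) = ρ (r' * z * r'⁻¹) := by
      ext w
      rw [hconj r z hz w, hconj r' z hz w, hrr]
    have h2 := hinj h1
    have h3 : z * (r⁻¹ * r') = r⁻¹ * (r * z * r⁻¹) * r' := by group
    rw [h3, h2]
    group
  refine le_trans ?_ (card_aut_le K)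
  refine Nat.pow_le_pow_right (by norm_num) ?_
  have hfin : Finite (K ≃+* K) := Finite.of_injective (fun s : K ≃+* K => (s : K → K))
    DFunLike.coe_injective
  show Nat.card (R ⧸ Subgroup.centralizer (U : Set R)) ≤ Nat.card (K ≃+* K)
  refine Nat.card_le_card_of_injective
    (fun c : R ⧸ Subgroup.centralizer (U : Set R) => s (Quotient.out c)) ?_
  intro c c' hcc
  have h1 := hker _ _ hcc
  rw [← QuotientGroup.out_eq' c, ← QuotientGroup.out_eq' c']
  exact QuotientGroup.eq.2 h1

end Pool.Agent.H74.FI.GAL
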