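import Pool.Agent.H6.FI.TargetsA

/-!
Board fi_modules, row SEC: the action on an abelian section.
-/

set_option autoImplicit false

namespace Pool.Agent.H74.FI.SEC

open _root_.FI

theorem pf_SEC : T_SEC := by
  intro R _ _ U D hU hD hUD hcom
  have hN : (U.subgroupOf D).Normal := hU.subgroupOf D
  let Q := D ⧸ U.subgroupOf D
  have hQc : ∀ a b : Q, a * b = b * a := by
    intro a b
    induction a using QuotientGroup.induction_on with
    | H a =>
      induction b using QuotientGroup.induction_on with
      | H b =>
        rw [← QuotientGroup.mk_mul, ← QuotientGroup.mk_mul, QuotientGroup.eq,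
          Subgroup.mem_subgroupOf]
        have h1 := hcom (b : R)⁻¹ (D.inv_mem b.2) (a : R)⁻¹ (D.inv_mem a.2)
        have h2 : (((a * b)⁻¹ * (b * a) : D) : R) = (b : R)⁻¹ * (a : R)⁻¹ * ((b : R)⁻¹)⁻¹ *
            ((a : R)⁻¹)⁻¹ := by
          push_cast
          group
        rw [h2]
        exact h1
  let _ : CommGroup Q := { (inferInstance : Group Q) with mul_comm := hQc }
  let W := Additive Q
  let f : D →* Multiplicative W :=
    { toFun := fun d => Multiplicative.ofAdd (Additive.ofMul (QuotientGroup.mk d : Q))
      map_one' := rfl
      map_mul' := fun a b => rfl }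
  let c : R → (D →* D) := fun r =>
    { toFun := fun d => ⟨r * d * r⁻¹, hD.conj_mem d d.2 r⟩
      map_one' := by ext; simp
      map_mul' := by intro a b; ext; simp }
  have hc : ∀ r, U.subgroupOf D ≤ (U.subgroupOf D).comap (c r) := by
    intro r d hd
    rw [Subgroup.mem_comap, Subgroup.mem_subgroupOf]
    rw [Subgroup.mem_subgroupOf] at hd
    exact hU.conj_mem _ hd r
  let κ : R →* AddMonoid.End W :=
    { toFun := fun r =>
        { toFun := fun w => Additive.ofMul
            (QuotientGroup.map (U.subgroupOf D) (U.subgroupOf D) (c r) (hc r) (Additive.toMul w))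
          map_zero' := by
            show Additive.ofMul (QuotientGroup.map (U.subgroupOf D) (U.subgroupOf D) (c r) (hc r)
              (1 : Q)) = Additive.ofMul (1 : Q)
            rw [map_one]
          map_add' := by
            intro a b
            show Additive.ofMul (QuotientGroup.map (U.subgroupOf D) (U.subgroupOf D) (c r) (hc r)
              ((Additive.toMul a : Q) * (Additive.toMul b : Q))) = _
            rw [map_mul]
            rfl }
      map_one' := by
        ext w
        induction w using QuotientGroup.induction_on with
        | H d =>
          show (QuotientGroup.mk (c 1 d) : Q) = QuotientGroup.mk d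
          congr 1
          ext
          show (1 : R) * d * (1 : R)⁻¹ = d
          group
      map_mul' := by
        intro r s
        ext w
        induction w using QuotientGroup.induction_on with
        | H d =>
          show (QuotientGroup.mk (c (r * s) d) : Q) = QuotientGroup.mk (c r (c s d))
          congr 1
          ext
          show (r * s) * d * (r * s)⁻¹ = r * (s * d * s⁻¹) * r⁻¹
          group }
  refine ⟨W, inferInstance, inferInstance, f, κ, ?_, ?_, ?_, ?_⟩
  · intro w
    obtain ⟨d, hd⟩ := QuotientGroup.mk_surjective (Additive.toMul (Multiplicative.toAdd w) : Q)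
    exact ⟨d, by
      show Multiplicative.ofAdd (Additive.ofMul (QuotientGroup.mk d : Q)) = w
      rw [hd]
      rfl⟩
  · intro d
    show (QuotientGroup.mk d : Q) = 1 ↔ _
    rw [QuotientGroup.eq_one_iff, Subgroup.mem_subgroupOf]
  · rfl
  · intro r d d' hd
    show (QuotientGroup.mk (c r d) : Q) = QuotientGroup.mk d'
    congr 1
    ext
    exact hd.symm

end Pool.Agent.H74.FI.SEC
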